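import Pool.Agent.helper66.SL.SpecK

/-! Row slk:KCL (MP_ad2b66). -/

set_option autoImplicit false

namespace Pool.Agent.helper66.SL

open Pool.Agent.helper52.FC

theorem KCL_tope {E : Type} {L : Set (E → SignType)} (hL : IsOM L) (hs : IsSimple L) {B : E → SignType}
    (hB : IsTope L B) {X : E → SignType} (hX : X ∈ L) : IsTope L (cmp X B) := by
  refine tope_of (hL.comp X hX B hB.1) fun e => ?_
  by_cases h : X e = 0
  · rw [cmp_pos h]
    exact tope_supp hL hs hB e
  · rwa [cmp_neg h]

theorem KCL_proof (hGEO : GEO) (hXJW : XJW) (hXUQ : XUQ) : KCL := by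
  intro E _ L hG B hB
  unfold aw
  rw [← pairs_ncard L (fun T => {e | Wall L T e ∧ T e = B e})]
  have hinj : Set.InjOn (fun X : E → SignType => (cmp X B, {e | Wall L (cmp X B) e ∧ X e = 0})) L := by
    intro X hX Y hY hXY
    have h1 : cmp X B = cmp Y B := (Prod.ext_iff.1 hXY).1
    have h2 : {e | Wall L (cmp X B) e ∧ X e = 0} = {e | Wall L (cmp Y B) e ∧ Y e = 0} :=
      (Prod.ext_iff.1 hXY).2
    refine hXUQ E L hG (cmp X B) (KCL_tope hG.om hG.simple hB hX) X hX Y hY (le_cmp X B)
      (by rw [h1]; exact le_cmp Y B) fun e he => ?_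
    have h3 : e ∈ {e | Wall L (cmp X B) e ∧ X e = 0} ↔ e ∈ {e | Wall L (cmp Y B) e ∧ Y e = 0} := by
      rw [h2]
    constructor
    · intro h4
      exact (h3.1 ⟨he, h4⟩).2
    · intro h4
      exact (h3.2 ⟨by rw [← h1]; exact he, h4⟩).2
  have himg : (fun X : E → SignType => (cmp X B, {e | Wall L (cmp X B) e ∧ X e = 0})) '' L =
      {q : (E → SignType) × Set E | IsTope L q.1 ∧ q.2 ⊆ {e | Wall L q.1 e ∧ q.1 e = B e}} := by
    ext ⟨T, J⟩
    constructor
    · rintro ⟨X, hX, hXT⟩
      have h1 : cmp X B = T := (Prod.ext_iff.1 hXT).1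
      have h2 : {e | Wall L (cmp X B) e ∧ X e = 0} = J := (Prod.ext_iff.1 hXT).2
      subst h1
      subst h2
      refine ⟨KCL_tope hG.om hG.simple hB hX, fun e he => ⟨he.1, ?_⟩⟩
      exact cmp_pos he.2
    · rintro ⟨hT, hJ⟩
      obtain ⟨X, hX, hXT, hXJ⟩ := hXJW E L hG T hT J fun e he => (hJ he).1
      have h1 : cmp X B = T := by
        by_contra hne
        obtain ⟨e, hw, he⟩ := hGEO E L hG.om hG.simple T (cmp X B) hT
          (KCL_tope hG.om hG.simple hB hX.1) (fun h => hne h.symm)
        by_cases h0 : X e = 0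
        · have h2 := (hJ ((hXJ e hw).1 h0)).2
          rw [cmp_pos h0] at he
          exact he h2
        · rw [cmp_neg h0] at he
          rcases hXT e with h3 | h3
          · exact h0 h3
          · exact he h3.symm
      refine ⟨X, hX.1, ?_⟩
      have h2 : {e | Wall L (cmp X B) e ∧ X e = 0} = J := by
        rw [h1]
        ext e
        constructor
        · rintro ⟨h3, h4⟩
          exact (hXJ e h3).1 h4
        · intro h3
          exact ⟨(hJ h3).1, (hXJ e (hJ h3).1).2 h3⟩
      exact Prod.ext h1 h2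
  rw [← himg, Set.InjOn.ncard_image hinj]

end Pool.Agent.helper66.SL
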